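import Pool.Agent.TTC.StmtsF

set_option autoImplicit false

/-!
# Squad TTC, row NA6: naturality of the sextic constructions

`sext`, `crit`, `d6`, `e6`, `om` commute with ring homomorphisms.
-/

namespace Pool.Agent.TTC.H51

open Polynomial NumberField

theorem sext_map {R S : Type} [CommRing R] [CommRing S] (φ : R →+* S) (a : Fin 7 → R) :
    sext (fun i => φ (a i)) = (sext a).map φ := by
  simp only [sext, Polynomial.map_add, Polynomial.map_mul, Polynomial.map_pow, Polynomial.map_C,
    Polynomial.map_X]

/-- `(F.map φ).map C = (F.map C).map (mapRingHom φ)` -/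
theorem map_C_comm {R S : Type} [CommRing R] [CommRing S] (φ : R →+* S) (F : R[X]) :
    (F.map φ).map (C : S →+* S[X]) = (F.map (C : R →+* R[X])).map (mapRingHom φ) := by
  rw [Polynomial.map_map, Polynomial.map_map]
  congr 1
  ext x
  simp

theorem crit_map {R S : Type} [CommRing R] [CommRing S] (φ : R →+* S) (a : Fin 7 → R) :
    crit (fun i => φ (a i)) = (crit a).map φ := by
  have h := resultant_map_map ((derivative (sext a)).map (C : R →+* R[X]))
    (C (X : R[X]) - (sext a).map (C : R →+* R[X])) 5 6 (mapRingHom φ)
  have e1 : ((derivative (sext a)).map (C : R →+* R[X])).map (mapRingHom φ) =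
      (derivative (sext (fun i => φ (a i)))).map (C : S →+* S[X]) := by
    rw [sext_map, derivative_map, map_C_comm]
  have e2 : (C (X : R[X]) - (sext a).map (C : R →+* R[X])).map (mapRingHom φ) =
      C (X : S[X]) - (sext (fun i => φ (a i))).map (C : S →+* S[X]) := by
    rw [sext_map, map_C_comm, Polynomial.map_sub, Polynomial.map_C]
    simp
  rw [e1, e2] at h
  exact h

/-- Row NA6. -/
theorem na6 : Na6Stmt := by
  intro R S _ _ φ a
  refine ⟨sext_map φ a, ?_, ?_, ?_⟩
  · simp only [d6, crit_map, coeff_map]
  · simp only [e6, crit_map, coeff_map, map_mul, map_ofNat]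
  · intro α
    have ht : taylor (φ α) (sext (fun i => φ (a i))) = (taylor α (sext a)).map φ := by
      rw [sext_map, map_taylor]
    simp only [om, ht, coeff_map, Polynomial.map_add, Polynomial.map_mul, Polynomial.map_pow,
      Polynomial.map_C, Polynomial.map_X, map_mul, map_pow]

end Pool.Agent.TTC.H51
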