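import Pool.Agent.TTC.StmtsG

set_option autoImplicit false

/-!
# Squad TTC, row PG7: pigeonhole over the roots
-/

namespace Pool.Agent.TTC.H51

open Polynomial NumberField

theorem sext_coeff_six {R : Type} [CommRing R] (a : Fin 7 → R) : (sext a).coeff 6 = a 0 := by
  simp only [sext, coeff_add, coeff_C_mul, coeff_X_pow, coeff_C, coeff_X]
  norm_num

theorem sext_natDegree_le {R : Type} [CommRing R] (a : Fin 7 → R) : (sext a).natDegree ≤ 6 := by
  unfold sext
  compute_degree!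

/-- Pigeonhole: a finite union with at most six members. -/
theorem pigeon {ι : Type} (R : Finset ι) (P : Finset ℕ) (Q : ι → ℕ → Prop) (hR : R.Nonempty)
    (hc : R.card ≤ 6) (hP : ∀ p ∈ P, ∃ α ∈ R, Q α p) :
    ∃ α ∈ R, ∃ P' ⊆ P, ∑ p ∈ P, Real.log p ≤ 6 * ∑ p ∈ P', Real.log p ∧ ∀ p ∈ P', Q α p := by
  classical
  by_contra hcon
  have hlog : ∀ p : ℕ, 0 ≤ Real.log (p : ℝ) := fun p => Real.log_natCast_nonneg p
  have h1 : ∀ α ∈ R, 6 * ∑ p ∈ P.filter (fun p => Q α p), Real.log p < ∑ p ∈ P, Real.log p := by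
    intro α hα
    by_contra h
    exact hcon ⟨α, hα, P.filter (fun p => Q α p), Finset.filter_subset _ _, not_lt.mp h,
      fun p hp => (Finset.mem_filter.mp hp).2⟩
  have h2 : ∑ α ∈ R, 6 * ∑ p ∈ P.filter (fun p => Q α p), Real.log p <
      ∑ _α ∈ R, ∑ p ∈ P, Real.log p := Finset.sum_lt_sum_of_nonempty hR h1
  have h3 : ∑ p ∈ P, Real.log (p : ℝ) ≤
      ∑ α ∈ R, ∑ p ∈ P.filter (fun p => Q α p), Real.log p := by
    simp only [Finset.sum_filter]
    rw [Finset.sum_comm]
    refine Finset.sum_le_sum fun p hp => ?_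
    obtain ⟨α, hα, hQ⟩ := hP p hp
    have h4 := Finset.single_le_sum (f := fun β => if Q β p then Real.log (p : ℝ) else 0)
      (s := R) (fun β _ => by
        by_cases hb : Q β p
        · simp only [hb, if_true]; exact hlog p
        · simp only [hb, if_false]; exact le_refl 0) hα
    simpa only [hQ, if_true] using h4
  have h5 : (0 : ℝ) ≤ ∑ p ∈ P, Real.log p := Finset.sum_nonneg fun p _ => hlog p
  rw [← Finset.mul_sum, Finset.sum_const, nsmul_eq_mul] at h2
  have h6 : (R.card : ℝ) * ∑ p ∈ P, Real.log (p : ℝ) ≤ 6 * ∑ p ∈ P, Real.log (p : ℝ) := by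
    have : (R.card : ℝ) ≤ 6 := by exact_mod_cast hc
    exact mul_le_mul_of_nonneg_right this h5
  linarith

/-- Row PG7. -/
theorem pg7 : Pg7Stmt := by
  intro K _ _ a P ha hs hP
  classical
  set F : K[X] := (sext a).map (Int.castRingHom K) with hF
  have hc6 : F.coeff 6 = (a 0 : K) := by
    rw [hF, coeff_map, sext_coeff_six]
    simp
  have ha' : (a 0 : K) ≠ 0 := by exact_mod_cast ha
  have hF0 : F ≠ 0 := by
    intro h
    apply ha'
    rw [← hc6, h, coeff_zero]
  have hdle : F.natDegree ≤ 6 := le_trans natDegree_map_le (sext_natDegree_le a)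
  have hd : F.natDegree = 6 := le_antisymm hdle (le_natDegree_of_ne_zero (by rw [hc6]; exact ha'))
  have hdeg : F.degree ≠ 0 := by
    rw [degree_eq_natDegree hF0, hd]
    decide
  obtain ⟨α₀, hα₀⟩ := hs.exists_eval_eq_zero hdeg
  have hmem : ∀ α : K, F.eval α = 0 → α ∈ F.roots.toFinset := fun α hα =>
    Multiset.mem_toFinset.mpr ((mem_roots hF0).mpr hα)
  obtain ⟨α, hα, P', hP', hsum, hQ⟩ := pigeon F.roots.toFinset P
    (fun α p => ∃ v : FinitePlace K, v (p : K) < 1 ∧ v ((derivative F).eval α) = 1)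
    ⟨α₀, hmem α₀ hα₀⟩
    (le_trans (Multiset.toFinset_card_le _) (le_trans (card_roots' F) hdle))
    (fun p hp => by
      obtain ⟨v, α, h1, h2, h3⟩ := hP p hp
      exact ⟨α, hmem α h2, v, h1, h3⟩)
  exact ⟨α, (mem_roots hF0).mp (Multiset.mem_toFinset.mp hα), P', hP', hsum, hQ⟩

end Pool.Agent.TTC.H51
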